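import Mathlib
import Pool.Agent.H97.Koe

namespace Pool.Agent.Results.MP_3984bd_an.Exists

open Set Filter Topology Polynomial

theorem result (𝕜 : Type) [RCLike 𝕜] :
    ∃ (E : Type) (_ : AddCommGroup E) (_ : Module 𝕜 E) (_ : Module ℝ E) (_ : IsScalarTower ℝ 𝕜 E)
      (_ : UniformSpace E) (_ : IsUniformAddGroup E) (_ : ContinuousSMul 𝕜 E),
      T2Space E ∧ LocallyConvexSpace ℝ E ∧ CompleteSpace E ∧ Module.rank 𝕜 E = Cardinal.aleph0 ∧
      ∃ (T : E →L[𝕜] E) (x : E), Dense (range fun n : ℕ => T^[n] x) := by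
  classical
  obtain ⟨g, hg⟩ := exists_surjective_nat (Σ n : ℕ, Fin n → ℕ)
  let Φ : ∀ n : ℕ, (Fin n → 𝕜) → 𝕜[X] := fun n c => ∑ i, c i • X ^ (i : ℕ)
  let d : ℕ → 𝕜[X] := fun c => Φ (g c).1 fun i => TopologicalSpace.denseSeq 𝕜 ((g c).2 i)
  let r : ℕ → 𝕜[X] := fun n => X ^ (n - n.sqrt * n.sqrt) * d n.sqrt.unpair.1
  let s : ℕ → 𝕜[X] := fun n => X ^ n - if (r n).degree < n then r n else 0
  have hs : ∀ n, (s n).degree = n ∧ (s n).Monic := fun n => by
    have : (if (r n).degree < n then r n else 0).degree < (X ^ n : 𝕜[X]).degree := by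
      rw [degree_X_pow]
      split_ifs with h
      exacts [h, by simp]
    exact ⟨(degree_sub_eq_left_of_degree_lt this).trans (degree_X_pow n),
      (monic_X_pow n).sub_of_left this⟩
  let S : Polynomial.Sequence 𝕜 := ⟨s, fun n => (hs n).1⟩
  let b := S.basis fun n => by rw [show (S n).leadingCoeff = 1 from (hs n).2]; exact isUnit_one
  have hb : ∀ n, b n = s n := fun n => S.basis_eq_self _ n
  let N : ℕ × ℕ → ℕ → ℕ := fun c k => c.1.pair k * c.1.pair k + c.2
  have hN : ∀ c, Tendsto (N c) atTop atTop := fun c =>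
    tendsto_atTop_mono (fun k => by
      have := Nat.right_le_pair c.1 k
      simp only [N, id]; nlinarith) tendsto_id
  let U : ℕ × ℕ → Ultrafilter ℕ := fun c => (hyperfilter ℕ).map (N c)
  have hU : ∀ c, (U c : Filter ℕ) ≤ cofinite := fun c => by
    rw [Nat.cofinite_eq_atTop]
    exact (hN c).mono_left Nat.hyperfilter_le_atTop
  have hbN : ∀ c : ℕ × ℕ, ∀ᶠ k in hyperfilter ℕ, b (N c k) = X ^ (N c k) - X ^ c.2 * d c.1 := by
    intro c
    refine Nat.hyperfilter_le_atTop ?_
    filter_upwards [eventually_ge_atTop c.2,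
      (hN c).eventually (eventually_gt_atTop (X ^ c.2 * d c.1).natDegree)] with k h1 h2
    have e1 : (N c k).sqrt = c.1.pair k :=
      Nat.sqrt_add_eq _ (by have := Nat.right_le_pair c.1 k; omega)
    have e2 : r (N c k) = X ^ c.2 * d c.1 := by
      simp only [r, e1, Nat.unpair_pair]
      simp [N]
    show b (N c k) = _
    rw [hb]
    simp only [s, e2, if_pos (degree_le_natDegree.trans_lt (Nat.cast_lt.2 h2))]
  let p : SeminormFamily 𝕜 𝕜[X] {q : Seminorm 𝕜 𝕜[X] //
    ∀ c, Tendsto (fun n => q (b n)) (U c) (𝓝 0)} := Subtype.val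
  let _ : TopologicalSpace 𝕜[X] := p.moduleFilterBasis.topology
  have hp : WithSeminorms p := ⟨rfl⟩
  have := hp.topologicalAddGroup
  have := hp.continuousSMul
  let _ : UniformSpace 𝕜[X] := IsTopologicalAddGroup.rightUniformSpace _
  have : IsUniformAddGroup 𝕜[X] := isUniformAddGroup_of_addCommGroup
  obtain ⟨h1, h2⟩ := Pool.Agent.H97.Koe.complete b U hU hp
  let T0 : 𝕜[X] →ₗ[𝕜] 𝕜[X] := LinearMap.mulLeft 𝕜 X
  have hT : Continuous T0 := hp.continuous_of_continuous_comp T0 fun q =>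
    hp.continuous_seminorm ⟨q.1.comp T0, fun c => by
      have h := q.2 (c.1, c.2 + 1)
      simp only [U, Ultrafilter.coe_map, tendsto_map'_iff] at h ⊢
      refine h.congr' ?_
      filter_upwards [hbN c, hbN (c.1, c.2 + 1)] with k a1 a2
      simp only [Function.comp_apply, Seminorm.comp_apply, a1, a2, T0, LinearMap.mulLeft_apply]
      congr 1
      simp only [N]
      ring⟩
  refine ⟨𝕜[X], inferInstance, inferInstance, inferInstance, inferInstance, inferInstance,
    inferInstance, inferInstance, h1, hp.toLocallyConvexSpace, h2,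
    b.mk_eq_rank''.symm.trans Cardinal.mk_nat, ⟨T0, hT⟩, 1, fun y => ?_⟩
  have hit : ∀ n : ℕ, (⟨T0, hT⟩ : 𝕜[X] →L[𝕜] 𝕜[X])^[n] 1 = X ^ n := fun n => by
    induction n with
    | zero => simp
    | succ n ih => rw [Function.iterate_succ_apply', ih, pow_succ']; rfl
  simp only [hit]
  have hd : ∀ c, d c ∈ closure (range fun n : ℕ => (X : 𝕜[X]) ^ n) := fun c => by
    refine mem_closure_of_tendsto (f := fun k => (X : 𝕜[X]) ^ N (c, 0) k) (b := hyperfilter ℕ)
      ((hp.tendsto_nhds _ _).2 fun q ε hε => ?_) (Eventually.of_forall fun k => ⟨_, rfl⟩)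
    have h := q.2 (c, 0)
    simp only [U, Ultrafilter.coe_map, tendsto_map'_iff] at h
    filter_upwards [h.eventually (eventually_lt_nhds hε), hbN (c, 0)] with k a1 a2
    simpa [a2] using a1
  have e : y = Φ (y.natDegree + 1) fun i => y.coeff i := by
    simp only [Φ]
    rw [Fin.sum_univ_eq_sum_range (fun i => y.coeff i • (X : 𝕜[X]) ^ i)]
    conv_lhs => rw [y.as_sum_range_C_mul_X_pow]
    simp only [smul_eq_C_mul]
  have hΦ : Continuous (Φ (y.natDegree + 1)) :=
    continuous_finsetSum _ fun i _ => (continuous_apply i).smul continuous_const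
  have hD := DenseRange.piMap (fun _ : Fin (y.natDegree + 1) =>
    TopologicalSpace.denseRange_denseSeq 𝕜)
  rw [e, ← closure_closure]
  refine map_mem_closure hΦ (hD _) ?_
  rintro _ ⟨w, rfl⟩
  obtain ⟨c, hc⟩ := hg ⟨_, w⟩
  have := hd c
  simp only [d] at this
  rw [hc] at this
  exact this

end Pool.Agent.Results.MP_3984bd_an.Exists
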