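import Pool.Agent.H91.HyperCount

set_option autoImplicit false

open H91.HyperCount in
theorem Pool.Agent.Results.MP_3984bd_an.Hypercyclic.result :
    ∃ (E : Type) (_ : AddCommGroup E) (_ : Module ℝ E) (_ : UniformSpace E),
    IsUniformAddGroup E ∧ ContinuousSMul ℝ E ∧ LocallyConvexSpace ℝ E ∧ T2Space E ∧
    CompleteSpace E ∧ Module.rank ℝ E = Cardinal.aleph0 ∧
    ∃ (T : E →L[ℝ] E) (x : E), DenseRange fun n : ℕ => (T ^ n) x :=
  main
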